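import Mathlib
import Pool.Agent.Q197.LB.Spaces
import Pool.Agent.Q197.LB.Main

open MeasureTheory

namespace Pool.Agent.Results.MP_cd69b0_an.LinfLrIsoBr

open Pool.Agent.Q197.LB

/-- For every `r ∈ [1,∞)` and real or complex scalars, the Bochner space `L_∞([0,1], L_r[0,1])`
is isomorphic to the `ℓ_∞`-sum of the spaces `ℓ_r^n`, `n ≥ 1`. -/
theorem result (𝕜 : Type) [RCLike 𝕜] (r : ENNReal) [Fact (1 ≤ r)] (hr : r ≠ ⊤) :
    IsoLinfSum 𝕜 (Lp 𝕜 r lam) (fun n : ℕ => PiLp r (fun _ : Fin (n + 1) => 𝕜)) :=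
  Pool.Agent.Q197.LB.main 𝕜 hr

end Pool.Agent.Results.MP_cd69b0_an.LinfLrIsoBr
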